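import Pool.Agent.R387.TC.Maln

/-! Project AS (helper35), job CW, first part: the Fox formula modulo 2 in a finite quotient. -/

set_option autoImplicit false

namespace Pool.Agent.V5helper72.AS

open Pool.Agent.R387.TC

section supp

variable {n : ℕ}

theorem cc_inv_apply {Q : Type} [Group Q] (q : F n →* Q) (i0 : Fin n) (x : F n) (z : Q) :
    cc q i0 x⁻¹ z = - cc q i0 x (q x * z) := by
  have h := congrFun (cc_inv q i0 x) (q x * z)
  rw [trans_apply, inv_mul_cancel_left] at h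
  exact h

theorem cc_mul_apply {Q : Type} [Group Q] (q : F n →* Q) (i0 : Fin n) (x y : F n) (z : Q) :
    cc q i0 (x * y) z = cc q i0 x z + cc q i0 y ((q x)⁻¹ * z) := by
  rw [cc_mul]
  rfl

theorem supp_inv (x : F n) (P : Finset (F n))
    (hP : ∀ (Q : Type) [Group Q] (q : F n →* Q) (i0 : Fin n) (z : Q), cc q i0 x z ≠ 0 → ∃ p ∈ P, z = q p) :
    ∃ P' : Finset (F n), ∀ (Q : Type) [Group Q] (q : F n →* Q) (i0 : Fin n) (z : Q),
      cc q i0 x⁻¹ z ≠ 0 → ∃ p ∈ P', z = q p := by
  classical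
  refine ⟨P.image (fun p => x⁻¹ * p), fun Q _ q i0 z hz => ?_⟩
  rw [cc_inv_apply, neg_ne_zero] at hz
  obtain ⟨p, hp, hpz⟩ := hP Q q i0 _ hz
  refine ⟨x⁻¹ * p, Finset.mem_image_of_mem _ hp, ?_⟩
  rw [map_mul, map_inv, ← hpz, inv_mul_cancel_left]

/-- the translation parts of `w` are supported on the images of a finite set -/
theorem supp (w : F n) : ∃ P : Finset (F n), ∀ (Q : Type) [Group Q] (q : F n →* Q) (i0 : Fin n) (z : Q),
    cc q i0 w z ≠ 0 → ∃ p ∈ P, z = q p := by
  classical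
  have hof : ∀ j : Fin n, ∃ P : Finset (F n), ∀ (Q : Type) [Group Q] (q : F n →* Q) (i0 : Fin n) (z : Q),
      cc q i0 (FreeGroup.of j) z ≠ 0 → ∃ p ∈ P, z = q p := by
    intro j
    refine ⟨{1}, fun Q _ q i0 z hz => ⟨1, Finset.mem_singleton_self _, ?_⟩⟩
    rw [map_one]
    by_cases hj : j = i0
    · subst hj
      rw [cc_of_eq] at hz
      by_contra hne
      apply hz
      simp only [delta]
      rw [if_neg hne]
    · rw [cc_of_ne q i0 hj] at hz
      exact absurd rfl hz
  induction w using FreeGroup.induction_on with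
  | C1 => exact ⟨∅, fun Q _ q i0 z hz => by rw [cc_one] at hz; exact absurd rfl hz⟩
  | of j => exact hof j
  | inv_of j _ =>
    obtain ⟨P, hP⟩ := hof j
    exact supp_inv _ P hP
  | mul x y hx hy =>
    obtain ⟨P1, h1⟩ := hx
    obtain ⟨P2, h2⟩ := hy
    refine ⟨P1 ∪ P2.image (fun p => x * p), fun Q _ q i0 z hz => ?_⟩
    rw [cc_mul_apply] at hz
    by_cases hz1 : cc q i0 x z = 0
    · rw [hz1, zero_add] at hz
      obtain ⟨p, hp, hpz⟩ := h2 Q q i0 _ hz
      refine ⟨x * p, Finset.mem_union_right _ (Finset.mem_image_of_mem _ hp), ?_⟩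
      rw [map_mul, ← hpz, mul_inv_cancel_left]
    · obtain ⟨p, hp, hpz⟩ := h1 Q q i0 _ hz1
      exact ⟨p, Finset.mem_union_left _ hp, hpz⟩

end supp

section fox

variable {n : ℕ} {Q : Type} [Group Q] [Fintype Q] (q : F n →* Q)

/-- the pairing of the Fox derivatives with a function -/
noncomputable def T (ψ : Q → ZMod 2) (w : F n) : ZMod 2 :=
  ∑ i : Fin n, ∑ y : Q, cc q i w y * (ψ (y * q (FreeGroup.of i)) - ψ y)

theorem T_mul (ψ : Q → ZMod 2) (u v : F n) :
    T q ψ (u * v) = T q ψ u + T q (fun y => ψ (q u * y)) v := by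
  unfold T
  rw [← Finset.sum_add_distrib]
  refine Finset.sum_congr rfl fun i _ => ?_
  have h1 : ∑ y : Q, cc q i v y * (ψ (q u * (y * q (FreeGroup.of i))) - ψ (q u * y)) =
      ∑ y : Q, cc q i v ((q u)⁻¹ * y) * (ψ (y * q (FreeGroup.of i)) - ψ y) := by
    rw [← Equiv.sum_comp (Equiv.mulLeft (q u))
      (fun y => cc q i v ((q u)⁻¹ * y) * (ψ (y * q (FreeGroup.of i)) - ψ y))]
    refine Finset.sum_congr rfl fun y _ => ?_
    rw [Equiv.coe_mulLeft, inv_mul_cancel_left, mul_assoc]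
  rw [h1, ← Finset.sum_add_distrib]
  refine Finset.sum_congr rfl fun y _ => ?_
  rw [cc_mul_apply, add_mul]

theorem T_one (ψ : Q → ZMod 2) : T q ψ 1 = 0 := by
  unfold T
  refine Finset.sum_eq_zero fun i _ => Finset.sum_eq_zero fun y _ => ?_
  rw [cc_one, Pi.zero_apply, zero_mul]

theorem T_of (ψ : Q → ZMod 2) (j : Fin n) :
    T q ψ (FreeGroup.of j) = ψ (q (FreeGroup.of j)) - ψ 1 := by
  classical
  unfold T
  rw [Finset.sum_eq_single j]
  · rw [Finset.sum_eq_single (1 : Q)]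
    · rw [cc_of_eq]
      simp [delta]
    · intro y _ hy
      rw [cc_of_eq]
      simp only [delta]
      rw [if_neg hy, zero_mul]
    · intro h; exact absurd (Finset.mem_univ _) h
  · intro i _ hi
    refine Finset.sum_eq_zero fun y _ => ?_
    rw [cc_of_ne q i (Ne.symm hi), Pi.zero_apply, zero_mul]
  · intro h; exact absurd (Finset.mem_univ _) h

/-- the fundamental formula -/
theorem T_eq (w : F n) : ∀ ψ : Q → ZMod 2, T q ψ w = ψ (q w) - ψ 1 := by
  have hinv : ∀ x : F n, (∀ ψ : Q → ZMod 2, T q ψ x = ψ (q x) - ψ 1) →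
      ∀ ψ : Q → ZMod 2, T q ψ x⁻¹ = ψ (q x⁻¹) - ψ 1 := by
    intro x hx ψ
    have h1 := T_mul q (fun y => ψ ((q x)⁻¹ * y)) x x⁻¹
    rw [mul_inv_cancel, T_one, hx] at h1
    simp only [inv_mul_cancel_left, inv_mul_cancel, mul_one] at h1
    rw [map_inv]
    have h2 : T q ψ x⁻¹ = -(ψ 1 - ψ (q x)⁻¹) := by
      have h3 : T q (fun y => ψ y) x⁻¹ = T q ψ x⁻¹ := rfl
      rw [h3] at h1
      exact (neg_eq_of_add_eq_zero_right h1.symm).symm
    rw [h2]
    ring
  induction w using FreeGroup.induction_on with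
  | C1 => intro ψ; rw [T_one, map_one, sub_self]
  | of j => exact fun ψ => T_of q ψ j
  | inv_of j _ => exact hinv _ (fun ψ => T_of q ψ j)
  | mul x y hx hy =>
    intro ψ
    rw [T_mul, hx, hy, map_mul, mul_one]
    ring

end fox

section coset

variable {Q : Type} [Group Q]

/-- representatives of the right cosets -/
theorem exists_rep (H : Subgroup Q) : ∃ s : Q → Q, (∀ b ∈ H, ∀ y, s (b * y) = s y) ∧
    ∀ y, s y * y⁻¹ ∈ H := by
  refine ⟨fun y => Quotient.out (Quotient.mk (QuotientGroup.rightRel H) y), ?_, ?_⟩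
  · intro b hb y
    show Quotient.out (Quotient.mk (QuotientGroup.rightRel H) (b * y)) =
      Quotient.out (Quotient.mk (QuotientGroup.rightRel H) y)
    congr 1
    apply Quotient.sound
    show (QuotientGroup.rightRel H) (b * y) y
    rw [QuotientGroup.rightRel_apply]
    have := H.inv_mem hb
    simpa using this
  · intro y
    have h1 : (QuotientGroup.rightRel H) (Quotient.out (Quotient.mk (QuotientGroup.rightRel H) y)) y :=
      Quotient.mk_out y
    rw [QuotientGroup.rightRel_apply] at h1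
    have := H.inv_mem h1
    simpa using this

/-- a function which changes under `a` -/
theorem exists_psi (a : Q) (ha : 2 ∣ orderOf a) : ∃ ψ : Q → ZMod 2, ∀ y, ψ (a * y) = ψ y + 1 := by
  obtain ⟨s, hs1, hs2⟩ := exists_rep (Subgroup.zpowers a)
  have h1 : ∀ y, ∃ k : ℤ, a ^ k * s y = y := by
    intro y
    obtain ⟨k, hk⟩ := Subgroup.mem_zpowers_iff.mp (hs2 y)
    refine ⟨-k, ?_⟩
    rw [zpow_neg, hk]
    group
  choose κ hκ using h1
  refine ⟨fun y => (κ y : ZMod 2), fun y => ?_⟩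
  have e1 := hκ (a * y)
  rw [hs1 a (Subgroup.mem_zpowers a) y] at e1
  have e2 : a ^ (κ y + 1) * s y = a * y := by
    rw [add_comm, zpow_add, zpow_one, mul_assoc, hκ y]
  have e3 : a ^ κ (a * y) = a ^ (κ y + 1) := mul_right_cancel (e1.trans e2.symm)
  rw [zpow_eq_zpow_iff_modEq] at e3
  have e4 : κ (a * y) ≡ κ y + 1 [ZMOD (2 : ℕ)] := e3.of_dvd (by exact_mod_cast ha)
  have e5 := (ZMod.intCast_eq_intCast_iff _ _ 2).mpr e4
  show ((κ (a * y) : ℤ) : ZMod 2) = ((κ y : ℤ) : ZMod 2) + 1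
  rw [e5]
  push_cast
  ring

/-- sums over the whole group against a function which is invariant -/
theorem sum_zero [Fintype Q] (H : Subgroup Q) [Fintype H] (φ Δ : Q → ZMod 2)
    (hΔ : ∀ b ∈ H, ∀ y, Δ (b * y) = Δ y) (hφ : ∀ z, ∑ b : H, φ (b.1 * z) = 0) :
    ∑ y : Q, φ y * Δ y = 0 := by
  classical
  obtain ⟨s, hs1, hs2⟩ := exists_rep H
  have he : ∀ y : Q, ∑ b : H, (if s y = b.1 * y then (1 : ZMod 2) else 0) = 1 := by
    intro y
    rw [Finset.sum_eq_single (⟨s y * y⁻¹, hs2 y⟩ : H)]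
    · rw [if_pos (by simp)]
    · intro b _ hb
      rw [if_neg]
      intro h
      apply hb
      apply Subtype.ext
      show b.1 = s y * y⁻¹
      rw [h, mul_inv_cancel_right]
    · intro h; exact absurd (Finset.mem_univ _) h
  calc ∑ y : Q, φ y * Δ y = ∑ y : Q, ∑ b : H, φ y * Δ y * (if s y = b.1 * y then (1 : ZMod 2) else 0) := by
        refine Finset.sum_congr rfl fun y _ => ?_
        rw [← Finset.mul_sum, he, mul_one]
    _ = ∑ b : H, ∑ y : Q, φ y * Δ y * (if s y = b.1 * y then (1 : ZMod 2) else 0) := Finset.sum_comm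
    _ = ∑ b : H, ∑ y : Q, φ (b.1⁻¹ * y) * Δ y * (if s y = y then (1 : ZMod 2) else 0) := by
        refine Finset.sum_congr rfl fun b _ => ?_
        rw [← Equiv.sum_comp (Equiv.mulLeft (b.1 : Q))
          (fun y => φ (b.1⁻¹ * y) * Δ y * (if s y = y then (1 : ZMod 2) else 0))]
        refine Finset.sum_congr rfl fun y _ => ?_
        rw [Equiv.coe_mulLeft, inv_mul_cancel_left, hΔ b.1 b.2, hs1 b.1 b.2]
    _ = ∑ y : Q, ∑ b : H, φ (b.1⁻¹ * y) * Δ y * (if s y = y then (1 : ZMod 2) else 0) := Finset.sum_comm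
    _ = 0 := by
        refine Finset.sum_eq_zero fun y _ => ?_
        have h1 : ∑ b : H, φ (b.1⁻¹ * y) = 0 := by
          rw [← hφ y, ← Equiv.sum_comp (Equiv.inv H) (fun b : H => φ (b.1 * y))]
          rfl
        have h2 : ∑ b : H, φ (b.1⁻¹ * y) * Δ y * (if s y = y then (1 : ZMod 2) else 0) =
            (∑ b : H, φ (b.1⁻¹ * y)) * (Δ y * (if s y = y then (1 : ZMod 2) else 0)) := by
          rw [Finset.sum_mul]
          refine Finset.sum_congr rfl fun b _ => ?_
          rw [mul_assoc]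
        rw [h2, h1, zero_mul]

end coset

/-- some sum over a coset does not vanish -/
theorem exists_ne {n : ℕ} {Q : Type} [Group Q] [Fintype Q] (q : F n →* Q) (w : F n)
    (hw : 2 ∣ orderOf (q w)) [Fintype (Subgroup.zpowers (q w))] :
    ∃ (i : Fin n) (z : Q), ∑ b : Subgroup.zpowers (q w), cc q i w (b.1 * z) ≠ 0 := by
  by_contra hcon
  push Not at hcon
  obtain ⟨ψ, hψ⟩ := exists_psi (q w) hw
  have h1 := T_eq q w ψ
  have h2 : ψ (q w) - ψ 1 = 1 := by
    have := hψ 1
    rw [mul_one] at this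
    rw [this]
    ring
  have h3 : T q ψ w = 0 := by
    unfold T
    refine Finset.sum_eq_zero fun i _ => ?_
    refine sum_zero (Subgroup.zpowers (q w)) _ _ ?_ (hcon i)
    intro b hb y
    have key : ∀ (k : ℕ) (y : Q), ψ ((q w) ^ k * y) = ψ y + k := by
      intro k
      induction k with
      | zero => intro y; simp
      | succ k ih =>
        intro y
        rw [pow_succ', mul_assoc, hψ, ih]
        push_cast
        ring
    obtain ⟨k, hk⟩ : ∃ k : ℕ, (q w) ^ k = b := by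
      have := (mem_powers_iff_mem_zpowers (x := q w) (y := b)).mpr hb
      exact this
    rw [← hk, key, mul_assoc, key]
    ring
  rw [h3, h2] at h1
  exact zero_ne_one h1

end Pool.Agent.V5helper72.AS
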