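import Pool.Agent.V5helper35.AS.StmA
import Pool.Agent.V5helper72.AS.CW0

/-! Project AS (helper35), job CW: control of the centralizer of `w` in finite quotients. -/

set_option autoImplicit false

namespace Pool.Agent.V5helper72.AS

open Pool.Agent.R387.TC Pool.Agent.N77.CS Pool.Agent.V5helper35.AS

/-- finitely many nontrivial elements are outside of a normal subgroup of finite index -/
theorem resfin (h2 : S_POT) (n : ℕ) (S : Finset (F n)) (hS : ∀ v ∈ S, v ≠ 1) :
    ∃ M : Subgroup (F n), M.Normal ∧ M.FiniteIndex ∧ ∀ v ∈ S, v ∉ M := by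
  classical
  induction S using Finset.induction_on with
  | empty => exact ⟨⊤, inferInstance, inferInstance, fun v hv => absurd hv (Finset.notMem_empty v)⟩
  | insert v S _ ih =>
    obtain ⟨M1, hn1, hf1, h1⟩ := ih (fun u hu => hS u (Finset.mem_insert_of_mem hu))
    obtain ⟨M2, hc2, hf2, h3⟩ := h2 n v (hS v (Finset.mem_insert_self _ _)) 2 (by norm_num)
    have := hn1; have := hf1; have := hf2
    have : M2.Normal := inferInstance
    refine ⟨M1 ⊓ M2, inferInstance, inferInstance, fun u hu hmem => ?_⟩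
    rcases Finset.mem_insert.mp hu with rfl | hu
    · have h4 := h3 1 (by rw [zpow_one]; exact hmem.2)
      norm_num at h4
    · exact h1 u hu hmem.1

theorem t_CW (h1 : S_CEN) (h2 : S_POT) : S_CW := by
  classical
  intro n w hw L hLn hLf
  obtain ⟨P, hP⟩ := supp w
  let bad : Finset (F n) := ((P ×ˢ P).image
    (fun p => (p.1 * p.2⁻¹) * w * (p.1 * p.2⁻¹)⁻¹ * w⁻¹)).filter (fun v => v ≠ 1)
  obtain ⟨M1, hM1n, hM1f, hM1⟩ := resfin h2 n bad (fun v hv => (Finset.mem_filter.mp hv).2)
  obtain ⟨M2, hM2c, hM2f, hM2⟩ := h2 n w hw.1 2 (by norm_num)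
  have := hLn; have := hLf; have := hM1n; have := hM1f; have := hM2f
  have : M2.Normal := inferInstance
  let N0 : Subgroup (F n) := L ⊓ (M1 ⊓ M2)
  have hN0n : N0.Normal := inferInstance
  have hN0f : N0.FiniteIndex := inferInstance
  let Q := F n ⧸ N0
  let q : F n →* Q := QuotientGroup.mk' N0
  have : Finite Q := inferInstance
  have : Fintype Q := Fintype.ofFinite Q
  have : Fintype (Subgroup.zpowers (q w)) := Fintype.ofFinite _
  have hq1 : ∀ x : F n, q x = 1 ↔ x ∈ N0 := fun x => QuotientGroup.eq_one_iff x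
  let R := Equiv.Perm (Q → ZMod 2) × Q
  have hR : Finite R := inferInstance
  refine ⟨core n R, core_char _ _, core_fin _ _, ?_, ?_⟩
  · intro x hx
    have h3 := mem_core.1 hx (MonoidHom.prod 1 q)
    have h4 : q x = 1 := (Prod.mk_eq_one.1 h3).2
    exact ((hq1 x).mp h4).1
  · intro g hg
    -- equality in `Q` and of the translation parts
    have hqeq : q (g * w * g⁻¹) = q w := by
      have h3 := mem_core.1 hg (MonoidHom.prod 1 q)
      have h4 : q (g * w * g⁻¹ * w⁻¹) = 1 := (Prod.mk_eq_one.1 h3).2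
      rw [map_mul, map_inv, mul_inv_eq_one] at h4
      exact h4
    have hceq : ∀ i : Fin n, cc q i (g * w * g⁻¹) = cc q i w := by
      intro i
      have h3 := mem_core.1 hg (MonoidHom.prod (aff q i) q)
      have h4 : aff q i (g * w * g⁻¹ * w⁻¹) = 1 := (Prod.mk_eq_one.1 h3).1
      rw [map_mul, map_inv, mul_inv_eq_one] at h4
      unfold cc
      rw [h4]
    have hcomm : q g * q w = q w * q g := by
      rw [map_mul, map_mul, map_inv, mul_inv_eq_iff_eq_mul] at hqeq
      exact hqeq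
    have hcommz : ∀ b ∈ Subgroup.zpowers (q w), Commute (q g) b := by
      intro b hb
      obtain ⟨k, rfl⟩ := Subgroup.mem_zpowers_iff.mp hb
      exact (show Commute (q g) (q w) from hcomm).zpow_right k
    have hwz : ∀ b ∈ Subgroup.zpowers (q w), Commute (q w) b := by
      intro b hb
      obtain ⟨k, rfl⟩ := Subgroup.mem_zpowers_iff.mp hb
      exact (Commute.refl (q w)).zpow_right k
    -- the even order
    have heven : 2 ∣ orderOf (q w) := by
      have h3 : (q w) ^ (orderOf (q w)) = 1 := pow_orderOf_eq_one _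
      rw [← map_pow, hq1] at h3
      have h4 := hM2 (orderOf (q w) : ℤ) (by rw [zpow_natCast]; exact h3.2.2)
      exact_mod_cast h4
    obtain ⟨i, z, hz⟩ := exists_ne q w heven
    -- invariance of the sums
    have hinv : ∑ b : Subgroup.zpowers (q w), cc q i w (b.1 * ((q g)⁻¹ * z)) =
        ∑ b : Subgroup.zpowers (q w), cc q i w (b.1 * z) := by
      have h3 : ∀ y : Q, cc q i g y + cc q i w ((q g)⁻¹ * y) - cc q i g ((q w)⁻¹ * y) = cc q i w y := by
        intro y
        have h5 : q g * ((q (g * w))⁻¹ * y) = (q w)⁻¹ * y := by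
          rw [map_mul, hcomm]
          group
        have h8 : cc q i (g * w * g⁻¹) y =
            (cc q i g y + cc q i w ((q g)⁻¹ * y)) + - cc q i g (q g * ((q (g * w))⁻¹ * y)) := by
          rw [cc_mul_apply, cc_mul_apply, cc_inv_apply]
        rw [hceq i, h5] at h8
        rw [sub_eq_add_neg]
        exact h8.symm
      have h4 : ∑ b : Subgroup.zpowers (q w), cc q i g ((q w)⁻¹ * (b.1 * z)) =
          ∑ b : Subgroup.zpowers (q w), cc q i g (b.1 * z) := by
        refine Fintype.sum_equiv (Equiv.mulLeft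
          (⟨q w, Subgroup.mem_zpowers (q w)⟩ : Subgroup.zpowers (q w))⁻¹) _ _ fun b => ?_
        simp [mul_assoc]
      have h5 : ∑ b : Subgroup.zpowers (q w), (cc q i g (b.1 * z) + cc q i w ((q g)⁻¹ * (b.1 * z)) -
          cc q i g ((q w)⁻¹ * (b.1 * z))) = ∑ b : Subgroup.zpowers (q w), cc q i w (b.1 * z) :=
        Finset.sum_congr rfl fun b _ => h3 (b.1 * z)
      rw [Finset.sum_sub_distrib, Finset.sum_add_distrib, h4, add_sub_cancel_left] at h5
      rw [← h5]
      refine Finset.sum_congr rfl fun b _ => ?_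
      congr 1
      have h6 := (hcommz b.1 b.2).inv_left
      rw [← mul_assoc, ← mul_assoc, h6.eq]
    obtain ⟨b1, -, hb1⟩ := Finset.exists_ne_zero_of_sum_ne_zero hz
    rw [← hinv] at hz
    obtain ⟨b2, -, hb2⟩ := Finset.exists_ne_zero_of_sum_ne_zero hz
    obtain ⟨p1, hp1, e1⟩ := hP Q q i _ hb1
    obtain ⟨p2, hp2, e2⟩ := hP Q q i _ hb2
    have hqg : q (p1 * p2⁻¹) = b1.1 * q g * (b2.1)⁻¹ := by
      rw [map_mul, map_inv, ← e1, ← e2]
      group
    have hcp : Commute (q w) (q (p1 * p2⁻¹)) := by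
      rw [hqg]
      have h3 : Commute (q w) (q g) := hcomm.symm
      exact ((hwz b1.1 b1.2).mul_right h3).mul_right (hwz b2.1 b2.2).inv_right
    have hv1 : (p1 * p2⁻¹) * w * (p1 * p2⁻¹)⁻¹ * w⁻¹ = 1 := by
      by_contra hne
      have hbad : (p1 * p2⁻¹) * w * (p1 * p2⁻¹)⁻¹ * w⁻¹ ∈ bad := by
        refine Finset.mem_filter.mpr ⟨Finset.mem_image.mpr ⟨(p1, p2), Finset.mem_product.mpr ⟨hp1, hp2⟩, rfl⟩, hne⟩
      apply hM1 _ hbad
      have h3 : q ((p1 * p2⁻¹) * w * (p1 * p2⁻¹)⁻¹ * w⁻¹) = 1 := by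
        rw [map_mul, map_mul, map_mul, map_inv, map_inv, ← hcp.eq, mul_inv_cancel_right, mul_inv_cancel]
      exact ((hq1 _).mp h3).2.1
    have hv2 : (p1 * p2⁻¹) * w = w * (p1 * p2⁻¹) := by
      rw [mul_inv_eq_one, mul_inv_eq_iff_eq_mul] at hv1
      exact hv1
    obtain ⟨k, hk⟩ := h1 n w hw _ hv2
    have hmem : q g ∈ Subgroup.zpowers (q w) := by
      have h3 : q g = (b1.1)⁻¹ * q (p1 * p2⁻¹) * b2.1 := by
        rw [hqg]; group
      rw [h3, hk, map_zpow]
      exact Subgroup.mul_mem _ (Subgroup.mul_mem _ (Subgroup.inv_mem _ b1.2)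
        (Subgroup.zpow_mem _ (Subgroup.mem_zpowers _) k)) b2.2
    obtain ⟨j, hj⟩ := Subgroup.mem_zpowers_iff.mp hmem
    refine ⟨j, ?_⟩
    have h3 : q (g⁻¹ * w ^ j) = 1 := by
      rw [map_mul, map_inv, map_zpow, hj, inv_mul_cancel]
    exact ((hq1 _).mp h3).1

end Pool.Agent.V5helper72.AS
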